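import Pool.Agent.Y453.UF.Stm

/-!
# Skew matrices and the second cohomology of the torus
-/

set_option autoImplicit false

namespace Pool.Agent.Y983.UF

open Module Finset
open Pool.Agent.Results.MP_9b3cbe_gt.E8Arises Pool.Agent.Y453.UF

/-- the ring, as an exterior algebra -/
abbrev A (n : ℕ) : Type := ExteriorAlgebra ℤ (Fin n → ℤ)

/-- its graded pieces, as submodules -/
abbrev L (n k : ℕ) : Submodule ℤ (A n) := ⋀[ℤ]^k (Fin n → ℤ)

/-- degree one generators -/
noncomputable def ee {n : ℕ} (i : Fin n) : A n := ExteriorAlgebra.ι ℤ (Pi.single i 1)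

/-- the pairs -/
abbrev PP (n : ℕ) : Type := {p : Fin n × Fin n // p.1 < p.2}

/-- pairs as order embeddings -/
def pequiv (n : ℕ) : (Fin 2 ↪o Fin n) ≃ PP n where
  toFun f := ⟨(f 0, f 1), f.strictMono (by decide)⟩
  invFun p := OrderEmbedding.ofStrictMono ![p.1.1, p.1.2] (by
    have := p.2
    intro a b hab
    fin_cases a <;> fin_cases b <;> simp_all)
  left_inv f := by
    apply DFunLike.ext
    intro k
    fin_cases k <;> rfl
  right_inv p := rfl

/-- the basis `e_i e_j`, `i < j` -/
noncomputable def BB (n : ℕ) : Basis (PP n) ℤ (L n 2) :=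
  ((Pi.basisFun ℤ (Fin n)).exteriorPower 2).reindex
    (Set.powersetCard.ofFinEmbEquiv.symm.trans (pequiv n))

lemma BB_apply {n : ℕ} (p : PP n) : ((BB n p : L n 2) : A n) = ee p.1.1 * ee p.1.2 := by
  have h1 : BB n p = ((Pi.basisFun ℤ (Fin n)).exteriorPower 2)
      (Set.powersetCard.ofFinEmbEquiv ((pequiv n).symm p)) := by
    simp [BB]
  rw [h1, exteriorPower.basis_apply]
  rw [exteriorPower.ιMulti_family_apply_coe]
  unfold ExteriorAlgebra.ιMulti_family
  rw [ExteriorAlgebra.ιMulti_apply]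
  rw [Equiv.symm_apply_apply]
  have h3 : ((pequiv n).symm p) 0 = p.1.1 := rfl
  have h4 : ((pequiv n).symm p) 1 = p.1.2 := rfl
  simp [List.ofFn_succ, ee, h3, h4]

/-- skew matrices are determined by their entries above the diagonal -/
def aequiv (n : ℕ) : AltM (Fin n) ≃+ (PP n → ℤ) where
  toFun M p := (M : Fin n → Fin n → ℤ) p.1.1 p.1.2
  invFun c := ⟨fun i j => if h : i < j then c ⟨(i, j), h⟩ else if h : j < i then -c ⟨(j, i), h⟩
    else 0, by
      intro i j
      rcases lt_trichotomy i j with h | h | h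
      · simp [h, h.not_gt]
      · subst h
        simp
      · simp [h, h.not_gt]⟩
  left_inv M := by
    apply Subtype.ext
    funext i j
    have hM : ∀ i j, (M : Fin n → Fin n → ℤ) j i = -(M : Fin n → Fin n → ℤ) i j := M.2
    rcases lt_trichotomy i j with h | h | h
    · simp [h]
    · subst h
      have := hM i i
      simp only [lt_self_iff_false, dite_false]
      omega
    · simp only [h, h.not_gt, dite_false, dite_true]
      rw [← hM]
  right_inv c := by
    funext p
    simp [p.2]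
  map_add' M N := rfl

lemma sum_pairs {n : ℕ} {G : Type} [AddCommGroup G] (F : Fin n → Fin n → G)
    (hs : ∀ i j, F j i = F i j) (h0 : ∀ i, F i i = 0) :
    ∑ i, ∑ j, F i j = 2 • ∑ p : PP n, F p.1.1 p.1.2 := by
  classical
  have h1 : ∀ i j, F i j = (if i < j then F i j else 0) + (if j < i then F i j else 0) := by
    intro i j
    rcases lt_trichotomy i j with h | h | h
    · simp [h, h.not_gt]
    · subst h
      simp [h0]
    · simp [h, h.not_gt]
  have h2 : ∑ i, ∑ j, (if i < j then F i j else 0) = ∑ p : PP n, F p.1.1 p.1.2 := by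
    rw [← Fintype.sum_prod_type' (f := fun i j => if i < j then F i j else 0),
      ← Finset.sum_filter]
    exact Finset.sum_subtype _ (fun x => by simp) _
  have h3 : ∑ i, ∑ j, (if j < i then F i j else 0) = ∑ p : PP n, F p.1.1 p.1.2 := by
    rw [Finset.sum_comm, ← h2]
    refine Finset.sum_congr rfl fun i _ => Finset.sum_congr rfl fun j _ => ?_
    rw [hs]
  rw [Finset.sum_congr rfl fun i _ => Finset.sum_congr rfl fun j _ => h1 i j]
  simp only [Finset.sum_add_distrib]
  rw [h2, h3, two_nsmul]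

lemma ee_swap {n : ℕ} (i j : Fin n) : ee j * ee i = -(ee i * ee j) := by
  have := ExteriorAlgebra.ι_add_mul_swap (R := ℤ) (Pi.single i 1 : Fin n → ℤ) (Pi.single j 1)
  exact eq_neg_of_add_eq_zero_right this

/-- the isomorphism -/
noncomputable def gg (n : ℕ) : AltM (Fin n) ≃+ L n 2 :=
  (aequiv n).trans (BB n).equivFun.symm.toAddEquiv

lemma gg_apply {n : ℕ} (M : AltM (Fin n)) : ((gg n M : L n 2) : A n) =
    ∑ p : PP n, (M : Fin n → Fin n → ℤ) p.1.1 p.1.2 • (ee p.1.1 * ee p.1.2) := by
  have h1 : gg n M = ∑ p : PP n, (M : Fin n → Fin n → ℤ) p.1.1 p.1.2 • BB n p := by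
    change (BB n).equivFun.symm (aequiv n M) = _
    rw [Basis.equivFun_symm_apply]
    rfl
  rw [h1, Submodule.coe_sum]
  refine Finset.sum_congr rfl fun p _ => ?_
  rw [Submodule.coe_smul, BB_apply]

lemma gg_two {n : ℕ} (M : AltM (Fin n)) : (2 : ℕ) • ((gg n M : L n 2) : A n) =
    ∑ i, ∑ j, (M : Fin n → Fin n → ℤ) i j • (ee i * ee j) := by
  have hM : ∀ i j, (M : Fin n → Fin n → ℤ) j i = -(M : Fin n → Fin n → ℤ) i j := M.2
  rw [sum_pairs (fun i j => (M : Fin n → Fin n → ℤ) i j • (ee i * ee j)), gg_apply]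
  · intro i j
    rw [hM i j, ee_swap i j, neg_smul, smul_neg, neg_neg]
  · intro i
    have h1 := hM i i
    have h2 : (M : Fin n → Fin n → ℤ) i i = 0 := by omega
    rw [h2, zero_smul]

/-- PAIR -/
theorem pair_iso : S_PAIR := by
  intro n
  exact ⟨gg n, fun M => gg_two M⟩

/-- the standard top class -/
noncomputable def TT (n : ℕ) : A n := ExteriorAlgebra.ιMulti ℤ n (fun i => Pi.single i 1)

lemma TT_mem (n : ℕ) : TT n ∈ L n n := ExteriorAlgebra.ιMulti_range ℤ (M := Fin n → ℤ) n ⟨_, rfl⟩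

/-- the top class is not a torsion element -/
lemma TT_torsionfree {n : ℕ} (m : ℤ) (h : m • TT n = 0) : m = 0 := by
  let D : (L n n) →ₗ[ℤ] ℤ := exteriorPower.alternatingMapLinearEquiv (Pi.basisFun ℤ (Fin n)).det
  have h1 : D ⟨TT n, TT_mem n⟩ = 1 := by
    have : (⟨TT n, TT_mem n⟩ : L n n) =
        exteriorPower.ιMulti ℤ n (fun i => (Pi.single i 1 : Fin n → ℤ)) := by
      apply Subtype.ext
      rfl
    rw [this]
    simp only [D, exteriorPower.alternatingMapLinearEquiv_apply_ιMulti]
    have hb : (fun i : Fin n => (Pi.single i 1 : Fin n → ℤ)) = (Pi.basisFun ℤ (Fin n)) := by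
      ext i j
      simp
    rw [hb]
    exact (Pi.basisFun ℤ (Fin n)).det_self
  have h2 : m • (⟨TT n, TT_mem n⟩ : L n n) = 0 := Subtype.ext h
  have h3 := congrArg D h2
  rw [map_smul, h1, map_zero] at h3
  simpa using h3

/-- TOR -/
theorem tor : S_TOR := by
  intro n T hT m hm
  have h1 : (show CohRing n from TT n) ∈ Coh n n := TT_mem n
  rw [← hT, AddSubgroup.mem_zmultiples_iff] at h1
  obtain ⟨k, hk⟩ := h1
  apply TT_torsionfree m
  have h2 : m • (show CohRing n from TT n) = 0 := by
    rw [← hk, smul_comm, hm, smul_zero]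
  exact h2

end Pool.Agent.Y983.UF
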